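import Pool.Agent.Work.MP_6dc561_sv.Tr

/-!
# Comparison of the averages
-/

set_option autoImplicit false

open NumberField IsDedekindDomain Ideal Filter Topology Module Polynomial

namespace Pool.SV

open Pool.Agent.Work.MP_6dc561_nt Pool.DS

/-- the value at a prime of `F` -/
noncomputable def val {F : Type} [Field F] [NumberField F] {σ : Type} (Φ : Set (MvPolynomial σ (𝓞 F)))
    (G : HeightOneSpectrum (𝓞 F) → ℕ → (ℕ → ℕ) → ℝ) (v : HeightOneSpectrum (𝓞 F)) : ℝ :=
  G v (absNorm v.asIdeal) (count0 Φ v)

open scoped Classical in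
open AVG DG1 in
theorem transfer {F : Type} [Field F] [NumberField F] (K : Type) [Field K] [NumberField K] [Algebra F K]
    (f : (𝓞 F)[X]) (hdeg : f.natDegree = 5 ∨ f.natDegree = 6)
    (hsep : (f.map (algebraMap (𝓞 F) F)).Separable) (S : Set (HeightOneSpectrum (𝓞 F))) (hS : S.Finite)
    {σ : Type} (Φ : Set (MvPolynomial σ (𝓞 F))) (G : HeightOneSpectrum (𝓞 F) → ℕ → (ℕ → ℕ) → ℝ) (M₀ : ℝ)
    (hG₀ : ∀ v q N, |G v q N| ≤ M₀) :
    Tendsto (fun x => average S Φ G K x - stAverage F K f (fun v _ _ => val Φ G v) x) atTop (𝓝 0) := by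
  obtain ⟨M, hM0, hG⟩ : ∃ M : ℝ, 0 ≤ M ∧ ∀ v q N, |G v q N| ≤ M :=
    ⟨max M₀ 0, le_max_right _ _, fun v a b => (hG₀ v a b).trans (le_max_left _ _)⟩
  have hAVG := stmt_AVG stmt_DG1 stmt_RED pit_all F K f hdeg hsep (fun v _ _ => val Φ G v) M
    (fun v _ _ => hG _ _ _)
  set T : Set (HeightOneSpectrum (𝓞 F)) := S ∪ (goodPrimes f 1)ᶜ with hTdef
  have hTF : T.Finite := hS.union (good_cofinite f hdeg hsep 1 one_ne_zero)
  have hT : {w : HeightOneSpectrum (𝓞 K) | below F w ∈ T}.Finite :=
    hTF.preimage' (f := fun w : HeightOneSpectrum (𝓞 K) => below F w) (fun v _ => (stmt_DGB F K v).1)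
  set g : HeightOneSpectrum (𝓞 K) → ℝ := fun w => G (below F w) (absNorm w.asIdeal) (count Φ w) with hg
  set W : ℝ → Finset (HeightOneSpectrum (𝓞 K)) := fun x =>
    (upTo K x).filter (fun w => below F w ∉ S) with hW
  have hset : ∀ x, primesUpTo S K x = (W x : Set (HeightOneSpectrum (𝓞 K))) := by
    intro x
    ext w
    simp only [primesUpTo, hW, Finset.coe_filter, mem_upTo, Set.mem_setOf_eq]
    exact and_comm
  have hav : ∀ x, average S Φ G K x = (∑ w ∈ W x, g w) / ((W x).card : ℝ) := by
    intro x
    unfold average
    rw [hset, Set.ncard_coe_finset]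
    congr 1
    exact finsum_mem_coe_finset _ _
  have hgv : ∀ v, |gv F f (fun v _ _ => val Φ G v) v| ≤ M := by
    intro v
    unfold gv
    split_ifs
    · exact hG _ _ _
    · rw [abs_zero]
      exact hM0
  have hmain : Tendsto (fun x => (∑ w ∈ W x, g w) / ((W x).card : ℝ) -
      (∑ v ∈ upTo F x, (degOne F K v : ℝ) * gv F f (fun v _ _ => val Φ G v) v) * Real.log x / x)
      atTop (𝓝 0) := by
    refine compare (M := M) (C := M * finrank ℚ K + 2 * M * hT.toFinset.card) hM0
      (fun x => by positivity) ?_ ?_ ?_
    · intro x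
      refine (Finset.abs_sum_le_sum_abs _ _).trans ?_
      refine (Finset.sum_le_sum fun w _ => hG _ _ _).trans ?_
      rw [Finset.sum_const, nsmul_eq_mul, mul_comm]
    · intro x hx
      have e1 : ∑ w ∈ W x, g w = ∑ w ∈ upTo K x, (if below F w ∉ S then g w else 0) := by
        simp only [hW]
        rw [Finset.sum_filter]
      have e3 : ∑ v ∈ upTo F x, (degOne F K v : ℝ) * gv F f (fun v _ _ => val Φ G v) v =
          ∑ w ∈ upTo K x, (if absNorm w.asIdeal = absNorm (below F w).asIdeal then
            gv F f (fun v _ _ => val Φ G v) (below F w) else 0) := by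
        rw [sum_group, Finset.sum_filter]
      have hb : ∀ w ∈ upTo K x, |(if below F w ∉ S then g w else 0) -
          (if absNorm w.asIdeal = absNorm (below F w).asIdeal then
            gv F f (fun v _ _ => val Φ G v) (below F w) else 0)| ≤
          (if ¬ absNorm w.asIdeal = absNorm (below F w).asIdeal then M else 0) +
            (if w ∈ hT.toFinset then 2 * M else 0) := by
        intro w _
        have hA : |if below F w ∉ S then g w else 0| ≤ M := by
          split_ifs
          · rw [abs_zero]
            exact hM0
          · exact hG _ _ _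
        by_cases h1 : absNorm w.asIdeal = absNorm (below F w).asIdeal
        · rw [if_pos h1, if_neg (not_not.2 h1), zero_add]
          by_cases h2 : w ∈ hT.toFinset
          · rw [if_pos h2]
            have h3 := abs_sub (if below F w ∉ S then g w else 0)
              (gv F f (fun v _ _ => val Φ G v) (below F w))
            have h4 := hgv (below F w)
            linarith
          · rw [if_neg h2]
            have h3 : below F w ∉ T := by
              intro h
              apply h2
              rw [Set.Finite.mem_toFinset]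
              exact h
            have h4 : below F w ∉ S := fun h => h3 (Or.inl h)
            have h5 : below F w ∈ goodPrimes f 1 := by
              by_contra h
              exact h3 (Or.inr h)
            rw [if_pos h4]
            have h6 : g w = gv F f (fun v _ _ => val Φ G v) (below F w) := by
              unfold gv
              rw [if_pos h5]
              simp only [hg, val]
              rw [count_eq Φ w h1, h1]
            rw [h6, sub_self, abs_zero]
        · rw [if_neg h1, if_pos h1, sub_zero]
          refine hA.trans ?_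
          have : 0 ≤ (if w ∈ hT.toFinset then 2 * M else 0) := by
            split_ifs <;> positivity
          linarith
      rw [e1, e3, ← Finset.sum_sub_distrib]
      refine (Finset.abs_sum_le_sum_abs _ _).trans ((Finset.sum_le_sum hb).trans ?_)
      rw [Finset.sum_add_distrib, ← Finset.sum_filter, ← Finset.sum_filter, Finset.sum_const,
        Finset.sum_const, nsmul_eq_mul, nsmul_eq_mul]
      have e5 := bad_card F K x (by linarith) ((upTo K x).filter
        (fun w => ¬ absNorm w.asIdeal = absNorm (below F w).asIdeal))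
        (fun w hw => Finset.mem_filter.mp hw)
      have e6 := mul_le_mul_of_nonneg_right e5 hM0
      have e7 : ((upTo K x).filter (fun w => w ∈ hT.toFinset)).card ≤ hT.toFinset.card :=
        Finset.card_le_card fun w hw => (Finset.mem_filter.mp hw).2
      have e8 : (((upTo K x).filter (fun w => w ∈ hT.toFinset)).card : ℝ) ≤ hT.toFinset.card := by
        exact_mod_cast e7
      have e9 : 1 ≤ Real.sqrt x := by
        rw [Real.one_le_sqrt]
        exact hx
      have e10 := mul_le_mul_of_nonneg_right e8 (by positivity : (0 : ℝ) ≤ 2 * M)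
      have e11 : (hT.toFinset.card : ℝ) * (2 * M) ≤ (2 * M * hT.toFinset.card) * Real.sqrt x := by
        have : 0 ≤ 2 * M * (hT.toFinset.card : ℝ) := by positivity
        nlinarith
      have e12 : (finrank ℚ K : ℝ) * Real.sqrt x * M = M * finrank ℚ K * Real.sqrt x := by ring
      rw [e12] at e6
      linarith [add_mul (M * (finrank ℚ K : ℝ)) (2 * M * hT.toFinset.card) (Real.sqrt x)]
    · refine density (U := fun x => ((upTo K x).card : ℝ)) (c := (hT.toFinset.card : ℝ))
        (pit_all K) ?_
      intro x
      have h2 := Finset.card_filter_add_card_filter_not (s := upTo K x)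
        (fun w => below F w ∉ S)
      have h3 : ((upTo K x).filter (fun w => ¬ below F w ∉ S)).card ≤
          hT.toFinset.card := by
        apply Finset.card_le_card
        intro w hw
        rw [Set.Finite.mem_toFinset]
        exact Or.inl (not_not.1 (Finset.mem_filter.mp hw).2)
      have h4 : ((W x).card : ℝ) +
          ((upTo K x).filter (fun w => ¬ below F w ∉ S)).card = (upTo K x).card := by
        exact_mod_cast h2
      rw [← h4, add_sub_cancel_left, abs_of_nonneg (by positivity)]
      exact_mod_cast h3
  have hsub := hmain.sub hAVG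
  rw [sub_zero] at hsub
  refine hsub.congr fun x => ?_
  rw [hav]
  ring

theorem average_le {F : Type} [Field F] [NumberField F] (K : Type) [Field K] [NumberField K] [Algebra F K]
    (S : Set (HeightOneSpectrum (𝓞 F))) {σ : Type} (Φ : Set (MvPolynomial σ (𝓞 F)))
    (G : HeightOneSpectrum (𝓞 F) → ℕ → (ℕ → ℕ) → ℝ) (M : ℝ) (hM : 0 ≤ M) (hG : ∀ v q N, |G v q N| ≤ M)
    (x : ℝ) : |average S Φ G K x| ≤ M := by
  unfold average
  by_cases hf : (primesUpTo S K x).Finite
  · rw [finsum_mem_eq_finite_toFinset_sum _ hf, abs_div, Nat.abs_cast]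
    rw [Set.ncard_eq_toFinset_card _ hf]
    by_cases h0 : hf.toFinset.card = 0
    · rw [h0, Nat.cast_zero, div_zero]
      exact hM
    · rw [div_le_iff₀ (by exact_mod_cast Nat.pos_of_ne_zero h0)]
      calc |∑ i ∈ hf.toFinset, _| ≤ ∑ i ∈ hf.toFinset, M :=
            (Finset.abs_sum_le_sum_abs _ _).trans (Finset.sum_le_sum fun i _ => hG _ _ _)
        _ = M * hf.toFinset.card := by rw [Finset.sum_const, nsmul_eq_mul, mul_comm]
  · rw [Set.Infinite.ncard hf, Nat.cast_zero, div_zero, abs_zero]
    exact hM

end Pool.SV
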