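import Pool.Agent.Work.MP_6dc561_mf.Fin

/-!
# Averages of local data of a system of equations over the primes of the extensions of a number field
-/

set_option autoImplicit false

open NumberField IsDedekindDomain Filter Topology Module

namespace Pool.SV

/-- The number of solutions of the system of equations `Φ` over the extension of degree `m` of the finite
field `k`. -/
noncomputable def solutions (k : Type) [Field k] {σ : Type} (Φ : Set (MvPolynomial σ k)) (m : ℕ) : ℕ :=
  {c : σ → AlgebraicClosure k | (∀ i, c i ^ Nat.card k ^ m = c i) ∧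
    ∀ φ ∈ Φ, MvPolynomial.aeval c φ = 0}.ncard

/-- `N_m(w)`: the number of solutions of the system `Φ` of equations over `𝓞_F` over the extension of degree
`m` of the residue field of the prime `w` of `K`. -/
noncomputable def count {F : Type} [Field F] [NumberField F] {σ : Type} (Φ : Set (MvPolynomial σ (𝓞 F)))
    {K : Type} [Field K] [NumberField K] [Algebra F K] (w : HeightOneSpectrum (𝓞 K)) (m : ℕ) : ℕ :=
  letI : Field (𝓞 K ⧸ w.asIdeal) := Pool.Agent.Work.MP_6dc561_nt.residueField w
  solutions (𝓞 K ⧸ w.asIdeal)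
    (MvPolynomial.map ((Ideal.Quotient.mk w.asIdeal).comp (algebraMap (𝓞 F) (𝓞 K))) '' Φ) m

/-- The primes of `K` of norm at most `x` which are not above a prime in `S`. -/
def primesUpTo {F : Type} [Field F] [NumberField F] (S : Set (HeightOneSpectrum (𝓞 F))) (K : Type) [Field K]
    [NumberField K] [Algebra F K] (x : ℝ) : Set (HeightOneSpectrum (𝓞 K)) :=
  {w | Pool.DS.below F w ∉ S ∧ (Ideal.absNorm w.asIdeal : ℝ) ≤ x}

/-- `A_x(K)`: the average over the primes `w` of `K` of norm `q_w ≤ x` not above a prime in `S` of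
`G (v, q_w, (N_m(w))_m)`, `v` the prime of `F` below `w`. -/
noncomputable def average {F : Type} [Field F] [NumberField F] (S : Set (HeightOneSpectrum (𝓞 F)))
    {σ : Type} (Φ : Set (MvPolynomial σ (𝓞 F))) (G : HeightOneSpectrum (𝓞 F) → ℕ → (ℕ → ℕ) → ℝ)
    (K : Type) [Field K] [NumberField K] [Algebra F K] (x : ℝ) : ℝ :=
  (∑ᶠ w ∈ primesUpTo S K x, G (Pool.DS.below F w) (Ideal.absNorm w.asIdeal) (count Φ w)) /
    ((primesUpTo S K x).ncard : ℝ)

open Classical in
/-- `A_x(K)` for a finite extension `K` of `F` in the algebraic closure of `F`. -/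
noncomputable def avg {F : Type} [Field F] [NumberField F] (S : Set (HeightOneSpectrum (𝓞 F)))
    {σ : Type} (Φ : Set (MvPolynomial σ (𝓞 F))) (G : HeightOneSpectrum (𝓞 F) → ℕ → (ℕ → ℕ) → ℝ)
    (K : IntermediateField F (AlgebraicClosure F)) (x : ℝ) : ℝ :=
  if h : FiniteDimensional F K then
    haveI : NumberField K := NumberField.of_module_finite F K
    average S Φ G K x
  else 0

/-- `K / F` is finite and the averages `A_x(K)` converge along the filter `l`. -/
def Converges {F : Type} [Field F] [NumberField F] (S : Set (HeightOneSpectrum (𝓞 F)))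
    {σ : Type} (Φ : Set (MvPolynomial σ (𝓞 F))) (G : HeightOneSpectrum (𝓞 F) → ℕ → (ℕ → ℕ) → ℝ)
    (l : Filter ℝ) (K : IntermediateField F (AlgebraicClosure F)) : Prop :=
  FiniteDimensional F K ∧ ∃ y, Tendsto (avg S Φ G K) l (𝓝 y)

/-- The limit of the averages `A_x(K)` along the filter `l` (if they converge). -/
noncomputable def limitValue {F : Type} [Field F] [NumberField F] (S : Set (HeightOneSpectrum (𝓞 F)))
    {σ : Type} (Φ : Set (MvPolynomial σ (𝓞 F))) (G : HeightOneSpectrum (𝓞 F) → ℕ → (ℕ → ℕ) → ℝ)
    (l : Filter ℝ) (K : IntermediateField F (AlgebraicClosure F)) : ℝ :=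
  limUnder l (avg S Φ G K)

end Pool.SV
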