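import Pool.Agent.Work.MP_6dc561_sv.Fin

/-!
# Descent of the averages through linearly disjoint extensions
-/

set_option autoImplicit false

open NumberField IsDedekindDomain Ideal Filter Topology Module Polynomial

namespace Pool.SV

variable {F : Type} [Field F] [NumberField F]

theorem average_iff {σ : Type} {Φ : Set (MvPolynomial σ (𝓞 F))}
    {G : HeightOneSpectrum (𝓞 F) → ℕ → (ℕ → ℕ) → ℝ} {S : Set (HeightOneSpectrum (𝓞 F))}
    (hS : S.Finite) {M : ℝ} (hG : ∀ v q N, |G v q N| ≤ M) {l : Filter ℝ} (hl : l ≤ atTop)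
    (K : Type) [Field K] [NumberField K] [Algebra F K] (y : ℝ) :
    Tendsto (average S Φ G K) l (𝓝 y) ↔
      Tendsto (DS.stAverage F K (aux F) (fun v _ _ => val Φ G v)) l (𝓝 y) := by
  have h := (transfer K (aux F) (Or.inl aux_deg) aux_sep S hS Φ G M hG).mono_left hl
  constructor
  · intro h1
    have h2 := h1.sub h
    rw [sub_zero] at h2
    refine h2.congr fun x => ?_
    ring
  · intro h1
    have h2 := h1.add h
    rw [add_zero] at h2
    refine h2.congr fun x => ?_
    ring

end Pool.SV
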