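import Pool.Agent.Work.MP_6dc561_sv.Comp

/-!
# The limits of the averages over the subfields of the algebraic closure
-/

set_option autoImplicit false

open NumberField IsDedekindDomain Ideal Filter Topology Module Polynomial

namespace Pool.SV

variable {F : Type} [Field F] [NumberField F]

/-- the auxiliary curve `y² = x⁵ - 1` -/
noncomputable def aux (F : Type) [Field F] [NumberField F] : (𝓞 F)[X] := X ^ 5 - 1

theorem aux_deg : (aux F).natDegree = 5 := by
  unfold aux
  rw [← C_1]
  exact natDegree_X_pow_sub_C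

theorem aux_sep : ((aux F).map (algebraMap (𝓞 F) F)).Separable := by
  unfold aux
  rw [Polynomial.map_sub, Polynomial.map_pow, Polynomial.map_X, Polynomial.map_one]
  rw [X_pow_sub_one_separable_iff]
  norm_num

variable {σ : Type} (Φ : Set (MvPolynomial σ (𝓞 F))) (G : HeightOneSpectrum (𝓞 F) → ℕ → (ℕ → ℕ) → ℝ)
  (S : Set (HeightOneSpectrum (𝓞 F)))

theorem avg_le (M : ℝ) (hM : 0 ≤ M) (hG : ∀ v q N, |G v q N| ≤ M)
    (K : IntermediateField F (AlgebraicClosure F)) (x : ℝ) : |avg S Φ G K x| ≤ M := by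
  unfold avg
  by_cases h : FiniteDimensional F K
  · rw [dif_pos h]
    haveI : NumberField K := NumberField.of_module_finite F K
    exact average_le K S Φ G M hM hG x
  · rw [dif_neg h, abs_zero]
    exact hM

theorem avg_sub (hS : S.Finite) (M : ℝ) (hG : ∀ v q N, |G v q N| ≤ M)
    (K : IntermediateField F (AlgebraicClosure F)) :
    Tendsto (fun x => avg S Φ G K x - MF.avg F (aux F) (fun v _ _ => val Φ G v) K x) atTop (𝓝 0) := by
  by_cases h : FiniteDimensional F K
  · haveI : NumberField K := NumberField.of_module_finite F K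
    refine (transfer K (aux F) (Or.inl aux_deg) aux_sep S hS Φ G M hG).congr fun x => ?_
    unfold avg
    rw [dif_pos h, MF.avg_eq]
  · refine tendsto_const_nhds.congr fun x => ?_
    unfold avg MF.avg
    rw [dif_neg h, dif_neg h, sub_zero]

variable {Φ G S}

theorem tendsto_iff (hS : S.Finite) {M : ℝ} (hG : ∀ v q N, |G v q N| ≤ M) {l : Filter ℝ} (hl : l ≤ atTop)
    (K : IntermediateField F (AlgebraicClosure F)) (y : ℝ) :
    Tendsto (avg S Φ G K) l (𝓝 y) ↔ Tendsto (MF.avg F (aux F) (fun v _ _ => val Φ G v) K) l (𝓝 y) := by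
  have h := (avg_sub Φ G S hS M hG K).mono_left hl
  constructor
  · intro h1
    have h2 := h1.sub h
    rw [sub_zero] at h2
    refine h2.congr fun x => ?_
    ring
  · intro h1
    have h2 := h1.add h
    rw [add_zero] at h2
    refine h2.congr fun x => ?_
    ring

theorem converges_iff (hS : S.Finite) {M : ℝ} (hG : ∀ v q N, |G v q N| ≤ M) {l : Filter ℝ}
    (hl : l ≤ atTop) (K : IntermediateField F (AlgebraicClosure F)) :
    Converges S Φ G l K ↔ MF.Converges (aux F) (fun v _ _ => val Φ G v) l K := by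
  unfold Converges MF.Converges
  simp only [tendsto_iff hS hG hl K]

theorem limit_eq (hS : S.Finite) {M : ℝ} (hG : ∀ v q N, |G v q N| ≤ M) {l : Filter ℝ} [l.NeBot]
    (hl : l ≤ atTop) {K : IntermediateField F (AlgebraicClosure F)} (hK : Converges S Φ G l K) :
    limitValue S Φ G l K = MF.limitValue (aux F) (fun v _ _ => val Φ G v) l K := by
  have h1 : Tendsto (avg S Φ G K) l (𝓝 (limitValue S Φ G l K)) := tendsto_nhds_limUnder hK.2
  have h2 := ((converges_iff hS hG hl K).1 hK).tends
  exact tendsto_nhds_unique ((tendsto_iff hS hG hl K _).1 h1) h2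

theorem minimal_finite (hS : S.Finite) (n : ℕ) (T : Type)
    (G : T → HeightOneSpectrum (𝓞 F) → ℕ → (ℕ → ℕ) → ℝ) (M : T → ℝ) (hG : ∀ t v q N, |G t v q N| ≤ M t)
    (M₀ : IntermediateField F (AlgebraicClosure F)) (hM₀ : FiniteDimensional F M₀)
    (L : T → IntermediateField F (AlgebraicClosure F) → ℝ) (l : Filter ℝ) [l.NeBot] (hl : l ≤ atTop) :
    {K : IntermediateField F (AlgebraicClosure F) | Minimal (fun K : IntermediateField F (AlgebraicClosure F) =>
      FiniteDimensional F K ∧ finrank F K ≤ n ∧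
        ∀ t, Tendsto (avg S Φ (G t) K) l (𝓝 (L t (K ⊓ M₀)))) K}.Finite := by
  have h := MF.minimal_finite (aux F) (Or.inl aux_deg) aux_sep n T (fun t v _ _ => val Φ (G t) v) M
    (fun t v _ _ => hG _ _ _ _) M₀ hM₀ L l hl
  have e : ∀ (t : T) (K : IntermediateField F (AlgebraicClosure F)) (y : ℝ),
      Tendsto (avg S Φ (G t) K) l (𝓝 y) ↔
        Tendsto (MF.avg F (aux F) (fun v _ _ => val Φ (G t) v) K) l (𝓝 y) :=
    fun t K y => tendsto_iff hS (hG t) hl K y
  simp only [e]
  exact h

section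

variable (hS : S.Finite) {M : ℝ} (hG : ∀ v q N, |G v q N| ≤ M) {l : Filter ℝ} [l.NeBot] (hl : l ≤ atTop)

include hS hG hl

theorem closedness (n : ℕ) (E : IntermediateField F (AlgebraicClosure F)) (hEfin : FiniteDimensional F E)
    (h : ∀ N : IntermediateField F (AlgebraicClosure F), FiniteDimensional F N → E ≤ N →
      ∃ K : IntermediateField F (AlgebraicClosure F), Converges S Φ G l K ∧ finrank F K ≤ n ∧ K ⊓ N = E) :
    Converges S Φ G l E := by
  rw [converges_iff hS hG hl]
  refine MF.closedness (aux F) (Or.inl aux_deg) aux_sep _ M (fun v _ _ => hG _ _ _) l hl n E hEfin ?_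
  intro N hN hEN
  obtain ⟨K, h1, h2, h3⟩ := h N hN hEN
  exact ⟨K, (converges_iff hS hG hl K).1 h1, h2, h3⟩

theorem continuity (E : IntermediateField F (AlgebraicClosure F)) (hE : Converges S Φ G l E)
    (ε : ℝ) (hε : 0 < ε) :
    ∃ N : IntermediateField F (AlgebraicClosure F), FiniteDimensional F N ∧ E ≤ N ∧
      ∀ K : IntermediateField F (AlgebraicClosure F), Converges S Φ G l K → K ⊓ N = E →
        (limitValue S Φ G l K - limitValue S Φ G l E) ^ 2 ≤ ε * ((finrank F K : ℝ) - finrank F E) := by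
  obtain ⟨N, h1, h2, h3⟩ := MF.continuity (aux F) (Or.inl aux_deg) aux_sep (fun v _ _ => val Φ G v) M
    (fun v _ _ => hG _ _ _) l hl E ((converges_iff hS hG hl E).1 hE) ε hε
  refine ⟨N, h1, h2, fun K hK hKN => ?_⟩
  rw [limit_eq hS hG hl hK, limit_eq hS hG hl hE]
  exact h3 K ((converges_iff hS hG hl K).1 hK) hKN

theorem image_eq (n : ℕ) : limitValue S Φ G l '' {K : IntermediateField F (AlgebraicClosure F) |
      Converges S Φ G l K ∧ finrank F K ≤ n} =
    MF.limitValue (aux F) (fun v _ _ => val Φ G v) l '' {K : IntermediateField F (AlgebraicClosure F) |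
      MF.Converges (aux F) (fun v _ _ => val Φ G v) l K ∧ finrank F K ≤ n} := by
  ext y
  constructor
  · rintro ⟨K, ⟨h1, h2⟩, rfl⟩
    exact ⟨K, ⟨(converges_iff hS hG hl K).1 h1, h2⟩, (limit_eq hS hG hl h1).symm⟩
  · rintro ⟨K, ⟨h1, h2⟩, rfl⟩
    have h3 := (converges_iff hS hG hl K).2 h1
    exact ⟨K, ⟨h3, h2⟩, limit_eq hS hG hl h3⟩

theorem compact (n : ℕ) : IsCompact (limitValue S Φ G l '' {K : IntermediateField F (AlgebraicClosure F) |
      Converges S Φ G l K ∧ finrank F K ≤ n}) := by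
  rw [image_eq hS hG hl]
  exact MF.compact (aux F) (Or.inl aux_deg) aux_sep _ M (fun v _ _ => hG _ _ _) l hl n

theorem cluster (n : ℕ) (y : ℝ) (hy : ∀ ε > 0, {K : IntermediateField F (AlgebraicClosure F) |
      Converges S Φ G l K ∧ finrank F K ≤ n ∧ |limitValue S Φ G l K - y| < ε}.Infinite) :
    ∃ E : IntermediateField F (AlgebraicClosure F),
      Converges S Φ G l E ∧ 2 * finrank F E ≤ n ∧ limitValue S Φ G l E = y := by
  obtain ⟨E, h1, h2, h3⟩ := MF.acc2 (aux F) (Or.inl aux_deg) aux_sep (fun v _ _ => val Φ G v) M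
    (fun v _ _ => hG _ _ _) l hl n y (by
      intro ε hε
      refine (hy ε hε).mono ?_
      rintro K ⟨h1, h2, h3⟩
      refine ⟨(converges_iff hS hG hl K).1 h1, h2, ?_⟩
      rw [← limit_eq hS hG hl h1]
      exact h3)
  have h4 := (converges_iff hS hG hl E).2 h1
  exact ⟨E, h4, h2, (limit_eq hS hG hl h4).trans h3⟩

end

/-- limits along ultrafilters exist -/
theorem converges_ultra {M : ℝ} (hG : ∀ v q N, |G v q N| ≤ M) (l : Ultrafilter ℝ)
    (K : IntermediateField F (AlgebraicClosure F)) (hK : FiniteDimensional F K) :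
    Converges S Φ G l K := by
  refine ⟨hK, ?_⟩
  have hG' : ∀ v q N, |G v q N| ≤ max M 0 := fun v a b => (hG v a b).trans (le_max_left _ _)
  have h1 : ((l.map (avg S Φ G K) : Ultrafilter ℝ) : Filter ℝ) ≤
      𝓟 (Set.Icc (-(max M 0)) (max M 0)) := by
    rw [le_principal_iff, Ultrafilter.coe_map, mem_map]
    exact Filter.univ_mem' fun x => abs_le.1 (avg_le Φ G S (max M 0) (le_max_right _ _) hG' K x)
  obtain ⟨y, -, hy⟩ := isCompact_Icc.ultrafilter_le_nhds _ h1
  exact ⟨y, hy⟩

end Pool.SV
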