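import Pool.Agent.Work.MP_6dc561_sv.Desc

/-!
# The Gram inequality and the closure theorem
-/

set_option autoImplicit false

open NumberField IsDedekindDomain Ideal Filter Topology Module Polynomial
open scoped TensorProduct

namespace Pool.SV

open Pool.DS Pool.Agent.Work.MP_6dc561_nt

variable {F : Type} [Field F] [NumberField F]

/-- `r(K, K')`: the number of prime ideals of `K ⊗_F K'`. -/
noncomputable def pairing (K K' : IntermediateField F (AlgebraicClosure F)) : ℝ :=
  Nat.card (PrimeSpectrum (K ⊗[F] K'))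

open Classical in
/-- the number of primes of relative degree one above `v` -/
noncomputable def eK (K : IntermediateField F (AlgebraicClosure F)) (v : HeightOneSpectrum (𝓞 F)) : ℝ :=
  if h : FiniteDimensional F K then
    haveI : NumberField K := NumberField.of_module_finite F K
    (degOne F K v : ℝ)
  else 0

theorem eK_mean (K K' : IntermediateField F (AlgebraicClosure F)) (hK : FiniteDimensional F K)
    (hK' : FiniteDimensional F K') :
    Tendsto (fun x : ℝ => (∑ v ∈ upTo F x, eK K v * eK K' v) * Real.log x / x) atTop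
      (𝓝 (pairing K K')) := by
  haveI : NumberField K := NumberField.of_module_finite F K
  haveI : NumberField K' := NumberField.of_module_finite F K'
  have h := (mea_all F).2 K K'
  unfold eK pairing
  simp only [dif_pos hK, dif_pos hK']
  exact h

variable {σ : Type} {Φ : Set (MvPolynomial σ (𝓞 F))} {G : HeightOneSpectrum (𝓞 F) → ℕ → (ℕ → ℕ) → ℝ}
  {S : Set (HeightOneSpectrum (𝓞 F))}

/-- the function on the primes of `F` -/
noncomputable def gF (Φ : Set (MvPolynomial σ (𝓞 F))) (G : HeightOneSpectrum (𝓞 F) → ℕ → (ℕ → ℕ) → ℝ)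
    (v : HeightOneSpectrum (𝓞 F)) : ℝ := gv F (aux F) (fun v _ _ => val Φ G v) v

theorem prime_exists (F : Type) [Field F] [NumberField F] : Nonempty (HeightOneSpectrum (𝓞 F)) := by
  by_contra h
  rw [not_nonempty_iff] at h
  have h1 := pit_all F
  have h2 : (fun x : ℝ => ((upTo F x).card : ℝ) * Real.log x / x) = fun _ => 0 := by
    funext x
    have : upTo F x = ∅ := Finset.eq_empty_of_isEmpty _
    rw [this, Finset.card_empty, Nat.cast_zero, zero_mul, zero_div]
  rw [h2] at h1
  exact zero_ne_one (tendsto_nhds_unique tendsto_const_nhds h1)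

theorem M_nonneg {M : ℝ} (hG : ∀ v q N, |G v q N| ≤ M) : 0 ≤ M := by
  obtain ⟨v⟩ := prime_exists F
  exact (abs_nonneg _).trans (hG v 0 (fun _ => 0))

theorem gF_le {M : ℝ} (hG : ∀ v q N, |G v q N| ≤ M) (v : HeightOneSpectrum (𝓞 F)) :
    |gF Φ G v| ≤ M := by
  unfold gF gv
  split_ifs
  · exact hG _ _ _
  · rw [abs_zero]
    exact M_nonneg hG

theorem avg_eK (hS : S.Finite) {M : ℝ} (hG : ∀ v q N, |G v q N| ≤ M)
    (K : IntermediateField F (AlgebraicClosure F)) (hK : FiniteDimensional F K) :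
    Tendsto (fun x : ℝ => avg S Φ G K x - (∑ v ∈ upTo F x, eK K v * gF Φ G v) * Real.log x / x)
      atTop (𝓝 0) := by
  haveI : NumberField K := NumberField.of_module_finite F K
  have h1 := transfer K (aux F) (Or.inl aux_deg) aux_sep S hS Φ G M hG
  have h2 := stmt_AVG stmt_DG1 stmt_RED pit_all F K (aux F) (Or.inl aux_deg) aux_sep
    (fun v _ _ => val Φ G v) M (fun v _ _ => hG _ _ _)
  have h3 := h1.add h2
  rw [add_zero] at h3
  refine h3.congr fun x => ?_
  unfold avg eK gF
  rw [dif_pos hK]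
  simp only [dif_pos hK]
  ring

theorem gram (hS : S.Finite) {M : ℝ} (hG : ∀ v q N, |G v q N| ≤ M) {l : Filter ℝ} [l.NeBot]
    (hl : l ≤ atTop) (s : Finset (IntermediateField F (AlgebraicClosure F)))
    (c : IntermediateField F (AlgebraicClosure F) → ℝ) (hs : ∀ K ∈ s, Converges S Φ G l K) :
    (∑ K ∈ s, c K * limitValue S Φ G l K) ^ 2 ≤
      M ^ 2 * ∑ K ∈ s, ∑ K' ∈ s, c K * c K' * pairing K K' := by
  have hg := gF_le (Φ := Φ) hG
  have hU : Tendsto (fun x : ℝ => (∑ v ∈ upTo F x, (∑ K ∈ s, c K * eK K v) * gF Φ G v) *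
      Real.log x / x) l (𝓝 (∑ K ∈ s, c K * limitValue S Φ G l K)) := by
    have h1 : Tendsto (fun x : ℝ => ∑ K ∈ s, c K * ((∑ v ∈ upTo F x, eK K v * gF Φ G v) *
        Real.log x / x)) l (𝓝 (∑ K ∈ s, c K * limitValue S Φ G l K)) := by
      refine tendsto_finset_sum _ fun K hK => Tendsto.const_mul _ ?_
      have h2 : Tendsto (avg S Φ G K) l (𝓝 (limitValue S Φ G l K)) := tendsto_nhds_limUnder (hs K hK).2
      have h3 := h2.sub ((avg_eK (Φ := Φ) hS hG K (hs K hK).1).mono_left hl)
      rw [sub_zero] at h3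
      refine h3.congr fun x => ?_
      ring
    refine h1.congr fun x => ?_
    have e : ∑ v ∈ upTo F x, (∑ K ∈ s, c K * eK K v) * gF Φ G v =
        ∑ K ∈ s, c K * ∑ v ∈ upTo F x, eK K v * gF Φ G v := by
      simp only [Finset.sum_mul, Finset.mul_sum]
      rw [Finset.sum_comm]
      refine Finset.sum_congr rfl fun K _ => Finset.sum_congr rfl fun v _ => ?_
      ring
    rw [e, Finset.sum_mul, Finset.sum_div]
    refine Finset.sum_congr rfl fun K _ => ?_
    ring
  have hV : Tendsto (fun x : ℝ => (∑ v ∈ upTo F x, (∑ K ∈ s, c K * eK K v) ^ 2) *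
      Real.log x / x) atTop (𝓝 (∑ K ∈ s, ∑ K' ∈ s, c K * c K' * pairing K K')) := by
    have h1 : Tendsto (fun x : ℝ => ∑ K ∈ s, ∑ K' ∈ s, c K * c K' *
        ((∑ v ∈ upTo F x, eK K v * eK K' v) * Real.log x / x)) atTop
        (𝓝 (∑ K ∈ s, ∑ K' ∈ s, c K * c K' * pairing K K')) :=
      tendsto_finset_sum _ fun K hK => tendsto_finset_sum _ fun K' hK' =>
        (eK_mean K K' (hs K hK).1 (hs K' hK').1).const_mul _
    refine h1.congr fun x => ?_
    have e : ∑ v ∈ upTo F x, (∑ K ∈ s, c K * eK K v) ^ 2 =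
        ∑ K ∈ s, ∑ K' ∈ s, c K * c K' * ∑ v ∈ upTo F x, eK K v * eK K' v := by
      have e1 : ∀ v, (∑ K ∈ s, c K * eK K v) ^ 2 =
          ∑ K ∈ s, ∑ K' ∈ s, c K * c K' * (eK K v * eK K' v) := by
        intro v
        rw [pow_two, Finset.sum_mul_sum]
        refine Finset.sum_congr rfl fun K _ => Finset.sum_congr rfl fun K' _ => ?_
        ring
      simp only [e1]
      rw [Finset.sum_comm]
      refine Finset.sum_congr rfl fun K _ => ?_
      rw [Finset.sum_comm]
      refine Finset.sum_congr rfl fun K' _ => ?_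
      rw [Finset.mul_sum]
    rw [e, Finset.sum_mul, Finset.sum_div]
    refine Finset.sum_congr rfl fun K _ => ?_
    rw [Finset.sum_mul, Finset.sum_div]
    refine Finset.sum_congr rfl fun K' _ => ?_
    ring
  have hP := pit_all F
  have hR := ((hP.const_mul (M ^ 2)).mul hV).mono_left hl
  rw [mul_one] at hR
  refine le_of_tendsto_of_tendsto (hU.pow 2) hR ?_
  filter_upwards [hl (eventually_ge_atTop (1 : ℝ))] with x hx
  have hx0 : 0 < x := by linarith
  have hw : 0 ≤ Real.log x / x := div_nonneg (Real.log_nonneg hx) hx0.le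
  have hcs := Finset.sum_mul_sq_le_sq_mul_sq (upTo F x) (fun v => ∑ K ∈ s, c K * eK K v)
    (fun v => gF Φ G v)
  have hg2 : ∑ v ∈ upTo F x, gF Φ G v ^ 2 ≤ (upTo F x).card * M ^ 2 := by
    have h1 : ∑ v ∈ upTo F x, gF Φ G v ^ 2 ≤ ∑ v ∈ upTo F x, M ^ 2 := by
      refine Finset.sum_le_sum fun v _ => ?_
      rw [← sq_abs]
      exact pow_le_pow_left₀ (abs_nonneg _) (hg v) 2
    rw [Finset.sum_const, nsmul_eq_mul] at h1
    exact h1
  have hu0 : 0 ≤ ∑ v ∈ upTo F x, (∑ K ∈ s, c K * eK K v) ^ 2 := Finset.sum_nonneg fun v _ => sq_nonneg _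
  have h2 := hcs.trans (mul_le_mul_of_nonneg_left hg2 hu0)
  have h3 := mul_le_mul_of_nonneg_right h2 (mul_nonneg hw hw)
  calc ((∑ v ∈ upTo F x, (∑ K ∈ s, c K * eK K v) * gF Φ G v) * Real.log x / x) ^ 2
      = (∑ v ∈ upTo F x, (∑ K ∈ s, c K * eK K v) * gF Φ G v) ^ 2 *
        (Real.log x / x * (Real.log x / x)) := by ring
    _ ≤ _ := h3
    _ = _ := by ring

theorem Converges.mono {l l' : Filter ℝ} [l'.NeBot] (h : l' ≤ l)
    {K : IntermediateField F (AlgebraicClosure F)} (hK : Converges S Φ G l K) :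
    Converges S Φ G l' K ∧ limitValue S Φ G l' K = limitValue S Φ G l K := by
  haveI : l.NeBot := NeBot.mono ‹l'.NeBot› h
  have h1 : Tendsto (avg S Φ G K) l (𝓝 (limitValue S Φ G l K)) := tendsto_nhds_limUnder hK.2
  have h2 : Converges S Φ G l' K := ⟨hK.1, _, h1.mono_left h⟩
  have h3 : Tendsto (avg S Φ G K) l' (𝓝 (limitValue S Φ G l' K)) := tendsto_nhds_limUnder h2.2
  exact ⟨h2, tendsto_nhds_unique h3 (h1.mono_left h)⟩

/-- the closure theorem -/
theorem closure_converges (hS : S.Finite) {M : ℝ} (hG : ∀ v q N, |G v q N| ≤ M) {l : Filter ℝ}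
    [l.NeBot] (hl : l ≤ atTop) (E : IntermediateField F (AlgebraicClosure F))
    (hE : FiniteDimensional F E)
    (h : ∀ ε : ℝ, 0 < ε → ∃ (s : Finset (IntermediateField F (AlgebraicClosure F)))
      (c : IntermediateField F (AlgebraicClosure F) → ℝ), E ∈ s ∧ c E = 1 ∧
      (∀ K ∈ s, K ≠ E → Converges S Φ G l K) ∧
      ∑ K ∈ s, ∑ K' ∈ s, c K * c K' * pairing K K' < ε) :
    Converges S Φ G l E := by
  classical
  have hM := M_nonneg hG
  have key : ∀ u u' : Ultrafilter ℝ, (u : Filter ℝ) ≤ l → (u' : Filter ℝ) ≤ l →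
      limitValue S Φ G u E = limitValue S Φ G u' E := by
    intro u u' hu hu'
    by_contra hne
    have hpos : 0 < (limitValue S Φ G u E - limitValue S Φ G u' E) ^ 2 := by
      have := sub_ne_zero.2 hne
      positivity
    obtain ⟨s, c, hEs, hcE, hconv, hform⟩ := h
      ((limitValue S Φ G u E - limitValue S Φ G u' E) ^ 2 / (8 * (M ^ 2 + 1))) (by positivity)
    have hone : ∀ w : Ultrafilter ℝ, (w : Filter ℝ) ≤ l →
        (limitValue S Φ G w E + ∑ K ∈ s.erase E, c K * limitValue S Φ G l K) ^ 2 ≤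
          M ^ 2 * ∑ K ∈ s, ∑ K' ∈ s, c K * c K' * pairing K K' := by
      intro w hw
      have h1 := gram (Φ := Φ) hS hG (hw.trans hl) s c (fun K hK => by
        by_cases hKE : K = E
        · rw [hKE]
          exact converges_ultra hG w E hE
        · exact ((hconv K hK hKE).mono hw).1)
      have h2 : ∑ K ∈ s, c K * limitValue S Φ G w K =
          limitValue S Φ G w E + ∑ K ∈ s.erase E, c K * limitValue S Φ G l K := by
        rw [← Finset.add_sum_erase s _ hEs, hcE, one_mul]
        congr 1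
        refine Finset.sum_congr rfl fun K hK => ?_
        obtain ⟨hKE, hKs⟩ := Finset.mem_erase.1 hK
        rw [((hconv K hKs hKE).mono hw).2]
      rw [h2] at h1
      exact h1
    have h1 := hone u hu
    have h2 := hone u' hu'
    set A := limitValue S Φ G u E
    set A' := limitValue S Φ G u' E
    set B := ∑ K ∈ s.erase E, c K * limitValue S Φ G l K
    set Q := ∑ K ∈ s, ∑ K' ∈ s, c K * c K' * pairing K K'
    have h3 : Q * (8 * (M ^ 2 + 1)) < (A - A') ^ 2 := by
      rwa [lt_div_iff₀ (by positivity)] at hform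
    have h4 : (A - A') ^ 2 ≤ 4 * (M ^ 2 * Q) := by nlinarith [sq_nonneg (A + A' + 2 * B)]
    have h5 : M ^ 2 * Q ≤ (M ^ 2 + 1) * Q ∨ Q < 0 := by
      by_cases hQ : 0 ≤ Q
      · left
        nlinarith
      · right
        exact not_le.1 hQ
    rcases h5 with h5 | h5
    · nlinarith
    · have : M ^ 2 * Q ≤ 0 := mul_nonpos_of_nonneg_of_nonpos (sq_nonneg M) h5.le
      linarith
  refine ⟨hE, limitValue S Φ G (Ultrafilter.of l) E, ?_⟩
  rw [tendsto_iff_ultrafilter]
  intro u hu
  have h1 : Tendsto (avg S Φ G E) u (𝓝 (limitValue S Φ G u E)) :=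
    tendsto_nhds_limUnder (converges_ultra hG u E hE).2
  rw [key u (Ultrafilter.of l) hu (Ultrafilter.of_le l)] at h1
  exact h1

end Pool.SV
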