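import Pool.Agent.Work.MP_6dc561_sv.Defs

/-!
# Transfer: the averages of local data are averages of a function on the primes of `F`
-/

set_option autoImplicit false

open NumberField IsDedekindDomain Ideal Filter Topology Module

namespace Pool.SV

open Pool.Agent.Work.MP_6dc561_nt

/-- the number of solutions is invariant under isomorphisms of the base field -/
theorem solutions_equiv {k k' : Type} [Field k] [Field k'] (τ₀ : k ≃+* k') {σ : Type}
    (Φ : Set (MvPolynomial σ k)) (m : ℕ) :
    solutions k' (MvPolynomial.map (τ₀ : k →+* k') '' Φ) m = solutions k Φ m := by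
  set τ : AlgebraicClosure k ≃+* AlgebraicClosure k' :=
    IsAlgClosure.equivOfEquiv (AlgebraicClosure k) (AlgebraicClosure k') τ₀ with hτ
  have hτσ : ∀ a : k, τ (algebraMap k (AlgebraicClosure k) a) =
      algebraMap k' (AlgebraicClosure k') (τ₀ a) :=
    fun a => IsAlgClosure.equivOfEquiv_algebraMap (AlgebraicClosure k) (AlgebraicClosure k') τ₀ a
  have hcard : Nat.card k' = Nat.card k := (Nat.card_congr τ₀.toEquiv).symm
  have hev : ∀ (c : σ → AlgebraicClosure k) (φ : MvPolynomial σ k),
      MvPolynomial.aeval (fun i => τ (c i)) (MvPolynomial.map (τ₀ : k →+* k') φ) =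
        τ (MvPolynomial.aeval c φ) := by
    intro c φ
    have hcomp : (algebraMap k' (AlgebraicClosure k')).comp (τ₀ : k →+* k') =
        (τ : AlgebraicClosure k →+* AlgebraicClosure k').comp
          (algebraMap k (AlgebraicClosure k)) := by
      ext a
      exact (hτσ a).symm
    rw [MvPolynomial.aeval_def, MvPolynomial.eval₂_map, hcomp, MvPolynomial.aeval_def]
    exact (MvPolynomial.eval₂_comp_left (τ : AlgebraicClosure k →+* AlgebraicClosure k')
      (algebraMap k (AlgebraicClosure k)) c φ).symm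
  unfold solutions
  have himg : {c : σ → AlgebraicClosure k' | (∀ i, c i ^ Nat.card k' ^ m = c i) ∧
      ∀ φ ∈ MvPolynomial.map (τ₀ : k →+* k') '' Φ, MvPolynomial.aeval c φ = 0} =
      (fun c : σ → AlgebraicClosure k => fun i => τ (c i)) '' {c : σ → AlgebraicClosure k |
        (∀ i, c i ^ Nat.card k ^ m = c i) ∧ ∀ φ ∈ Φ, MvPolynomial.aeval c φ = 0} := by
    ext c
    constructor
    · rintro ⟨h1, h2⟩
      have hc : (fun i => τ (τ.symm (c i))) = c := funext fun i => τ.apply_symm_apply _
      refine ⟨fun i => τ.symm (c i), ⟨fun i => ?_, fun φ hφ => ?_⟩, hc⟩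
      · apply τ.injective
        rw [map_pow, τ.apply_symm_apply, ← hcard, h1]
      · apply τ.injective
        rw [← hev, hc, map_zero]
        exact h2 _ ⟨φ, hφ, rfl⟩
    · rintro ⟨d, ⟨h1, h2⟩, rfl⟩
      refine ⟨fun i => ?_, ?_⟩
      · change (τ (d i)) ^ _ = τ (d i)
        rw [← map_pow, hcard, h1]
      · rintro _ ⟨φ, hφ, rfl⟩
        rw [hev, h2 φ hφ, map_zero]
  rw [himg, Set.ncard_image_of_injective]
  intro c d h
  funext i
  exact τ.injective (congrFun h i)

/-- `N_m(v)` for a prime of `F` -/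
noncomputable def count0 {F : Type} [Field F] [NumberField F] {σ : Type} (Φ : Set (MvPolynomial σ (𝓞 F)))
    (v : HeightOneSpectrum (𝓞 F)) (m : ℕ) : ℕ :=
  letI : Field (𝓞 F ⧸ v.asIdeal) := residueField v
  solutions (𝓞 F ⧸ v.asIdeal) (MvPolynomial.map (Ideal.Quotient.mk v.asIdeal) '' Φ) m

theorem count_eq {F : Type} [Field F] [NumberField F] {σ : Type} (Φ : Set (MvPolynomial σ (𝓞 F)))
    {K : Type} [Field K] [NumberField K] [Algebra F K] (w : HeightOneSpectrum (𝓞 K))
    (hw : absNorm w.asIdeal = absNorm (DS.below F w).asIdeal) :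
    count Φ w = count0 Φ (DS.below F w) := by
  funext m
  have hbij := DS.RED.qmap_bijective F w hw
  let _ : Field (𝓞 K ⧸ w.asIdeal) := residueField w
  let _ : Field (𝓞 F ⧸ (DS.below F w).asIdeal) := residueField (DS.below F w)
  have key := solutions_equiv (RingEquiv.ofBijective (DS.RED.qmap F w) hbij)
    (MvPolynomial.map (Ideal.Quotient.mk (DS.below F w).asIdeal) '' Φ) m
  have e1 : ((RingEquiv.ofBijective (DS.RED.qmap F w) hbij :
      (𝓞 F ⧸ (DS.below F w).asIdeal) ≃+* (𝓞 K ⧸ w.asIdeal)) :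
      (𝓞 F ⧸ (DS.below F w).asIdeal) →+* (𝓞 K ⧸ w.asIdeal)) = DS.RED.qmap F w := by
    ext; rfl
  have e2 : (DS.RED.qmap F w).comp (Ideal.Quotient.mk (DS.below F w).asIdeal) =
      (Ideal.Quotient.mk w.asIdeal).comp (algebraMap (𝓞 F) (𝓞 K)) := by
    ext a
    exact DS.RED.qmap_mk F w a
  rw [e1, Set.image_image] at key
  simp only [MvPolynomial.map_map] at key
  rw [e2] at key
  exact key

end Pool.SV
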